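import Mathlib

set_option autoImplicit false

/-! # Small solutions of a linear equation -/

namespace Pool.Agent.R870.RT

open Finset

theorem card_class (F : Finset ℤ) (H ρ : ℕ) (hρ : 1 ≤ ρ) (hF : ∀ z ∈ F, |z| ≤ H)
    (hd : ∀ z ∈ F, ∀ w ∈ F, (ρ : ℤ) ∣ z - w) : F.card * ρ ≤ 2 * H + ρ := by
  rcases F.eq_empty_or_nonempty with h | h
  · rw [h, card_empty, zero_mul]
    exact Nat.zero_le _
  set z0 := F.min' h with hz0
  have hz0F : z0 ∈ F := F.min'_mem h
  have hρ0 : (0 : ℤ) < ρ := by exact_mod_cast hρ
  have h1 : F.card ≤ (range (2 * H / ρ + 1)).card := by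
    apply card_le_card_of_injOn (fun z => ((z - z0) / ρ).toNat)
    · intro z hz
      have hz' := mem_coe.1 hz
      have h2 : z0 ≤ z := F.min'_le z hz'
      have h3 := abs_le.1 (hF z hz')
      have h4 := abs_le.1 (hF z0 hz0F)
      rw [mem_coe, mem_range]
      have h5 : (z - z0) / ρ ≤ (2 * (H : ℤ)) / ρ := Int.ediv_le_ediv hρ0 (by linarith)
      have h6 : 0 ≤ (z - z0) / (ρ : ℤ) := Int.ediv_nonneg (by linarith) hρ0.le
      have h7 : ((2 * H / ρ : ℕ) : ℤ) = (2 * (H : ℤ)) / ρ := by push_cast; rfl
      change ((z - z0) / (ρ : ℤ)).toNat < 2 * H / ρ + 1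
      rw [Nat.lt_succ_iff, Int.toNat_le, h7]
      exact h5
    · intro z hz w hw hzw
      have hz' := mem_coe.1 hz
      have hw' := mem_coe.1 hw
      have h2 : z0 ≤ z := F.min'_le z hz'
      have h3 : z0 ≤ w := F.min'_le w hw'
      have h4 : 0 ≤ (z - z0) / (ρ : ℤ) := Int.ediv_nonneg (by linarith) hρ0.le
      have h5 : 0 ≤ (w - z0) / (ρ : ℤ) := Int.ediv_nonneg (by linarith) hρ0.le
      simp only at hzw
      have h6 : (z - z0) / (ρ : ℤ) = (w - z0) / ρ := by omega
      have h7 := Int.ediv_mul_cancel (hd z hz' z0 hz0F)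
      have h8 := Int.ediv_mul_cancel (hd w hw' z0 hz0F)
      rw [h6] at h7
      linarith
  rw [card_range] at h1
  calc F.card * ρ ≤ (2 * H / ρ + 1) * ρ := Nat.mul_le_mul_right _ h1
    _ = 2 * H / ρ * ρ + ρ := by ring
    _ ≤ 2 * H + ρ := by
      have := Nat.div_mul_le_self (2 * H) ρ
      omega

variable {ι : Type*}

/-- the gcd of the `y_m`, `m ∈ U` -/
noncomputable def gd (y : ι → ℤ) (U : Finset ι) : ℕ := U.gcd (fun m => (y m).natAbs)

theorem gd_insert [DecidableEq ι] (y : ι → ℤ) (U : Finset ι) (a : ι) :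
    gd y (insert a U) = Nat.gcd (y a).natAbs (gd y U) := by
  unfold gd
  rw [gcd_insert]
  rfl

theorem gd_dvd (y : ι → ℤ) (U : Finset ι) {u : ι} (hu : u ∈ U) : gd y U ∣ (y u).natAbs :=
  Finset.gcd_dvd hu

variable [Fintype ι] [DecidableEq ι]

/-- the vectors supported outside of `U` with `∑ c_m y_m` divisible by the gcd of the `y_m`, `m ∈ U` -/
noncomputable def cnt (y : ι → ℤ) (H : ℕ) (U : Finset ι) : Finset (ι → ℤ) :=
  (Fintype.piFinset fun m => if m ∈ U then {0} else Finset.Icc (-(H : ℤ)) H).filter
    (fun c => ((gd y U : ℕ) : ℤ) ∣ ∑ m, c m * y m)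

theorem cnt_step (y : ι → ℤ) (hy : ∀ m, y m ≠ 0) (H : ℕ) (U : Finset ι) (u a : ι) (hu : u ∈ U)
    (ha : a ∉ U) (hua : (y u).natAbs ≤ H * Nat.gcd (y u).natAbs (y a).natAbs) :
    (cnt y H U).card * gd y U ≤ 3 * H * ((cnt y H (insert a U)).card * gd y (insert a U)) := by
  have hg0 : 0 < gd y U := Nat.pos_of_dvd_of_pos (gd_dvd y U hu) (Int.natAbs_pos.2 (hy u))
  have hya : 0 < (y a).natAbs := Int.natAbs_pos.2 (hy a)
  have hyu : 0 < (y u).natAbs := Int.natAbs_pos.2 (hy u)
  set g := gd y U with hg
  set g' := gd y (insert a U) with hg'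
  have hg'e : g' = Nat.gcd (y a).natAbs g := gd_insert y U a
  have hg'g : g' ∣ g := by rw [hg'e]; exact Nat.gcd_dvd_right _ _
  have hg'a : g' ∣ (y a).natAbs := by rw [hg'e]; exact Nat.gcd_dvd_left _ _
  have hg'0 : 0 < g' := Nat.pos_of_dvd_of_pos hg'g hg0
  obtain ⟨ρ, hρ⟩ := hg'g
  have hρ0 : 0 < ρ := by
    rcases Nat.eq_zero_or_pos ρ with h | h
    · rw [h, mul_zero] at hρ; omega
    · exact h
  -- ρ ≤ H
  have hρH : ρ ≤ H := by
    have h1 : g * Nat.gcd (y u).natAbs (y a).natAbs ∣ (y u).natAbs * g' := by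
      rw [hg'e, ← Nat.gcd_mul_left, ← Nat.gcd_mul_left]
      apply Nat.dvd_gcd
      · refine (Nat.gcd_dvd_right _ _).trans ?_
        exact Nat.mul_dvd_mul_right (gd_dvd y U hu) _
      · refine (Nat.gcd_dvd_left _ _).trans ?_
        rw [mul_comm]
    have h2 := Nat.le_of_dvd (Nat.mul_pos hyu hg'0) h1
    have h3 : 0 < Nat.gcd (y u).natAbs (y a).natAbs := Nat.gcd_pos_of_pos_left _ hyu
    have h4 : g * Nat.gcd (y u).natAbs (y a).natAbs ≤
        (H * g') * Nat.gcd (y u).natAbs (y a).natAbs := by
      calc _ ≤ (y u).natAbs * g' := h2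
        _ ≤ (H * Nat.gcd (y u).natAbs (y a).natAbs) * g' := Nat.mul_le_mul_right _ hua
        _ = _ := by ring
    have h5 : g ≤ H * g' := Nat.le_of_mul_le_mul_right h4 h3
    rw [hρ, mul_comm] at h5
    exact Nat.le_of_mul_le_mul_right h5 hg'0
  -- fibres
  have hmaps : ∀ c ∈ cnt y H U, Function.update c a 0 ∈ cnt y H (insert a U) := by
    intro c hc
    unfold cnt at hc ⊢
    rw [mem_filter, Fintype.mem_piFinset] at hc ⊢
    refine ⟨fun m => ?_, ?_⟩
    · by_cases hm : m = a
      · subst hm
        rw [Function.update_self, if_pos (mem_insert_self _ _), mem_singleton]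
      · rw [Function.update_of_ne hm]
        have := hc.1 m
        by_cases hmU : m ∈ U
        · rw [if_pos hmU] at this
          rwa [if_pos (mem_insert_of_mem hmU)]
        · rw [if_neg hmU] at this
          rwa [if_neg (by rw [mem_insert, not_or]; exact ⟨hm, hmU⟩)]
    · have h1 : ∑ m, Function.update c a 0 m * y m = ∑ m, c m * y m - c a * y a := by
        rw [← Finset.add_sum_erase _ _ (mem_univ a), ← Finset.add_sum_erase _ (fun m => c m * y m)
          (mem_univ a), Function.update_self, zero_mul, zero_add, add_sub_cancel_left]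
        refine sum_congr rfl fun m hm => ?_
        rw [Function.update_of_ne (ne_of_mem_erase hm)]
      rw [h1]
      apply dvd_sub
      · refine dvd_trans ?_ hc.2
        rw [Int.natCast_dvd_natCast]
        exact ⟨ρ, hρ⟩
      · apply Dvd.dvd.mul_left
        rw [Int.natCast_dvd]
        exact hg'a
  rw [card_eq_sum_card_fiberwise (f := fun c => Function.update c a 0) (t := cnt y H (insert a U))
    hmaps]
  have hfib : ∀ c' ∈ cnt y H (insert a U),
      ((cnt y H U).filter (fun c => Function.update c a 0 = c')).card * ρ ≤ 3 * H := by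
    intro c' _
    have h1 : ((cnt y H U).filter (fun c => Function.update c a 0 = c')).card =
        (((cnt y H U).filter (fun c => Function.update c a 0 = c')).image (fun c => c a)).card := by
      rw [card_image_of_injOn]
      intro c hc d hd hcd
      have hc2 := (mem_filter.1 (mem_coe.1 hc)).2
      have hd2 := (mem_filter.1 (mem_coe.1 hd)).2
      simp only at hcd
      funext m
      by_cases hm : m = a
      · rw [hm, hcd]
      · have h3 := congrFun (hc2.trans hd2.symm) m
        rwa [Function.update_of_ne hm, Function.update_of_ne hm] at h3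
    rw [h1]
    have h2 := card_class
      (((cnt y H U).filter (fun c => Function.update c a 0 = c')).image (fun c => c a)) H ρ hρ0
      (by
        intro z hz
        obtain ⟨c, hc, rfl⟩ := mem_image.1 hz
        have hc1 := (mem_filter.1 hc).1
        unfold cnt at hc1
        rw [mem_filter, Fintype.mem_piFinset] at hc1
        have := hc1.1 a
        rw [if_neg ha, mem_Icc] at this
        exact abs_le.2 this)
      (by
        intro z hz w hw
        obtain ⟨c, hc, rfl⟩ := mem_image.1 hz
        obtain ⟨d, hd, rfl⟩ := mem_image.1 hw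
        obtain ⟨hc1, hc2⟩ := mem_filter.1 hc
        obtain ⟨hd1, hd2⟩ := mem_filter.1 hd
        unfold cnt at hc1 hd1
        have hc3 := (mem_filter.1 hc1).2
        have hd3 := (mem_filter.1 hd1).2
        have h3 : ∑ m, c m * y m - ∑ m, d m * y m = (c a - d a) * y a := by
          rw [← Finset.add_sum_erase _ (fun m => c m * y m) (mem_univ a),
            ← Finset.add_sum_erase _ (fun m => d m * y m) (mem_univ a)]
          have h4 : ∑ m ∈ univ.erase a, c m * y m = ∑ m ∈ univ.erase a, d m * y m := by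
            refine sum_congr rfl fun m hm => ?_
            have h5 := congrFun (hc2.trans hd2.symm) m
            rw [Function.update_of_ne (ne_of_mem_erase hm),
              Function.update_of_ne (ne_of_mem_erase hm)] at h5
            rw [h5]
          rw [h4]
          ring
        have h4 : (g : ℤ) ∣ (c a - d a) * y a := by
          rw [← h3]
          exact dvd_sub hc3 hd3
        -- g = g' ρ, y a = g' b, gcd(ρ, b) = 1
        obtain ⟨b, hb⟩ := hg'a
        have hcop : Nat.Coprime ρ b := by
          have h5 : g' * Nat.gcd b ρ = g' * 1 := by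
            rw [← Nat.gcd_mul_left, ← hb, ← hρ, mul_one, ← hg'e]
          have h6 := Nat.eq_of_mul_eq_mul_left hg'0 h5
          rw [Nat.coprime_comm]
          exact h6
        have h5 : (g * 1 : ℕ) ∣ (c a - d a).natAbs * (y a).natAbs := by
          rw [mul_one, ← Int.natAbs_mul]
          exact Int.natCast_dvd.1 h4
        rw [mul_one, hρ, hb, show (c a - d a).natAbs * (g' * b) = g' * ((c a - d a).natAbs * b) by
          ring] at h5
        have h6 := Nat.dvd_of_mul_dvd_mul_left hg'0 h5
        have h7 := hcop.dvd_of_dvd_mul_right h6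
        exact Int.natCast_dvd.2 h7)
    refine h2.trans ?_
    omega
  calc (∑ c' ∈ cnt y H (insert a U),
        ((cnt y H U).filter (fun c => Function.update c a 0 = c')).card) * g
      = (∑ c' ∈ cnt y H (insert a U),
        ((cnt y H U).filter (fun c => Function.update c a 0 = c')).card * ρ) * g' := by
        rw [hρ, sum_mul, sum_mul]
        refine sum_congr rfl fun _ _ => ?_
        ring
    _ ≤ (∑ _c' ∈ cnt y H (insert a U), 3 * H) * g' :=
        Nat.mul_le_mul_right _ (sum_le_sum hfib)
    _ = _ := by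
        rw [sum_const, smul_eq_mul]
        ring

theorem cnt_le (y : ι → ℤ) (hy : ∀ m, y m ≠ 0) (hgcd : gd y univ = 1) (H : ℕ)
    (adj : ∀ U : Finset ι, U.Nonempty → U ≠ univ → ∃ u ∈ U, ∃ a, a ∉ U ∧
      (y u).natAbs ≤ H * Nat.gcd (y u).natAbs (y a).natAbs) :
    ∀ (k : ℕ) (U : Finset ι), U.Nonempty → Uᶜ.card = k →
      (cnt y H U).card * gd y U ≤ (3 * H) ^ k := by
  intro k
  induction k with
  | zero =>
    intro U _ hU
    have h1 : U = univ := by
      rw [card_eq_zero] at hU
      rw [← compl_compl U, hU, compl_empty]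
    rw [h1, hgcd, mul_one, pow_zero]
    refine (card_le_card (?_ : cnt y H univ ⊆ {0})).trans (card_singleton _).le
    intro c hc
    unfold cnt at hc
    rw [mem_filter, Fintype.mem_piFinset] at hc
    rw [mem_singleton]
    funext m
    have := hc.1 m
    rwa [if_pos (mem_univ m), mem_singleton] at this
  | succ k ih =>
    intro U hUn hU
    have hne : U ≠ univ := by
      intro h
      rw [h, compl_univ, card_empty] at hU
      omega
    obtain ⟨u, hu, a, ha, hua⟩ := adj U hUn hne
    have h1 : (insert a U)ᶜ.card = k := by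
      rw [compl_insert, card_erase_of_mem (mem_compl.2 ha), hU]
      rfl
    have h2 := ih (insert a U) (insert_nonempty _ _) h1
    calc _ ≤ 3 * H * ((cnt y H (insert a U)).card * gd y (insert a U)) :=
          cnt_step y hy H U u a hu ha hua
      _ ≤ 3 * H * (3 * H) ^ k := Nat.mul_le_mul_left _ h2
      _ = _ := by ring

/-- the solutions of the linear equation in the box -/
noncomputable def sol (y : ι → ℤ) (H : ℕ) : Finset (ι → ℤ) :=
  (Fintype.piFinset fun _ => Finset.Icc (-(H : ℤ)) H).filter (fun c => ∑ m, c m * y m = 0)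

theorem sol_le (y : ι → ℤ) (hy : ∀ m, y m ≠ 0) (hgcd : gd y univ = 1) (H : ℕ)
    (adj : ∀ U : Finset ι, U.Nonempty → U ≠ univ → ∃ u ∈ U, ∃ a, a ∉ U ∧
      (y u).natAbs ≤ H * Nat.gcd (y u).natAbs (y a).natAbs) (m₁ : ι) :
    (sol y H).card * (y m₁).natAbs ≤ (3 * H) ^ (Fintype.card ι - 1) := by
  have h1 := cnt_le y hy hgcd H adj (Fintype.card ι - 1) {m₁} (singleton_nonempty _)
    (by rw [card_compl, card_singleton])
  have h2 : gd y {m₁} = (y m₁).natAbs := by
    unfold gd
    rw [gcd_singleton, normalize_eq]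
  rw [h2] at h1
  refine le_trans (Nat.mul_le_mul_right _ ?_) h1
  apply card_le_card_of_injOn (fun c => Function.update c m₁ 0)
  · intro c hc
    have hc' := mem_coe.1 hc
    unfold sol at hc'
    rw [mem_filter, Fintype.mem_piFinset] at hc'
    rw [mem_coe]
    unfold cnt
    rw [mem_filter, Fintype.mem_piFinset]
    refine ⟨fun m => ?_, ?_⟩
    · change Function.update c m₁ 0 m ∈ _
      by_cases hm : m = m₁
      · rw [hm, Function.update_self, if_pos (mem_singleton_self _), mem_singleton]
      · rw [Function.update_of_ne hm, if_neg (by rwa [mem_singleton])]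
        exact hc'.1 m
    · have h3 : ∑ m, Function.update c m₁ 0 m * y m = ∑ m, c m * y m - c m₁ * y m₁ := by
        rw [← Finset.add_sum_erase _ _ (mem_univ m₁), ← Finset.add_sum_erase _
          (fun m => c m * y m) (mem_univ m₁), Function.update_self, zero_mul, zero_add,
          add_sub_cancel_left]
        refine sum_congr rfl fun m hm => ?_
        rw [Function.update_of_ne (ne_of_mem_erase hm)]
      rw [h3, hc'.2, zero_sub, dvd_neg, h2]
      exact Dvd.dvd.mul_left (Int.natAbs_dvd.2 dvd_rfl) _
  · intro c hc d hd hcd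
    have hc' := mem_coe.1 hc
    have hd' := mem_coe.1 hd
    unfold sol at hc' hd'
    have hc2 := (mem_filter.1 hc').2
    have hd2 := (mem_filter.1 hd').2
    simp only at hcd
    have h3 : ∀ m, m ≠ m₁ → c m = d m := by
      intro m hm
      have := congrFun hcd m
      rwa [Function.update_of_ne hm, Function.update_of_ne hm] at this
    funext m
    by_cases hm : m = m₁
    · rw [hm]
      rw [← Finset.add_sum_erase _ (fun m => c m * y m) (mem_univ m₁)] at hc2
      rw [← Finset.add_sum_erase _ (fun m => d m * y m) (mem_univ m₁)] at hd2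
      have h4 : ∑ m ∈ univ.erase m₁, c m * y m = ∑ m ∈ univ.erase m₁, d m * y m :=
        sum_congr rfl fun m hm => by rw [h3 m (ne_of_mem_erase hm)]
      rw [h4] at hc2
      have h5 : c m₁ * y m₁ = d m₁ * y m₁ := by linarith
      exact mul_right_cancel₀ (hy m₁) h5
    · exact h3 m hm

end Pool.Agent.R870.RT
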