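import Mathlib

set_option autoImplicit false

/-! # Random systems of Laurent polynomials with given supports: definitions -/

namespace Pool.Agent.R870.RT

/-- the value at `x` of the Laurent polynomial `∑_{m ∈ A} c_m x^m` -/
def val {n : ℕ} {A : Finset (Fin n → ℤ)} (c : A → ℤ) (x : Fin n → ℚ) : ℚ :=
  ∑ m : A, (c m : ℚ) * ∏ j, x j ^ (m : Fin n → ℤ) j

/-- the systems `(F_1, …, F_s)` of Laurent polynomials with supports in `A_1, …, A_s`, with integer
coefficients of absolute value at most `H` -/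
def Systems {n s : ℕ} (A : Fin s → Finset (Fin n → ℤ)) (H : ℕ) : Set ((i : Fin s) → A i → ℤ) :=
  {c | ∀ i m, |c i m| ≤ H}

/-- the systems with a common zero `x ∈ (ℚ^*)^n` whose coordinates have numerators and denominators
of absolute value at most `B` -/
def WithPoint {n s : ℕ} (A : Fin s → Finset (Fin n → ℤ)) (H B : ℕ) :
    Set ((i : Fin s) → A i → ℤ) :=
  {c | c ∈ Systems A H ∧ ∃ x : Fin n → ℚ, (∀ j, x j ≠ 0) ∧
    (∀ j, |(x j).num| ≤ B ∧ (x j).den ≤ B) ∧ ∀ i, val (c i) x = 0}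

/-- the sums `m_1 + … + m_s` with `m_i ∈ A_i`; their convex hull is `P_1 + … + P_s`, `P_i` the
convex hull of `A_i` -/
def Sums {n s : ℕ} (A : Fin s → Finset (Fin n → ℤ)) : Set (Fin n → ℝ) :=
  {m | ∃ σ : (i : Fin s) → A i, ∀ j, m j = ∑ i, (((σ i : Fin n → ℤ) j : ℤ) : ℝ)}

/-- the interior of the polytope `P = P_1 + … + P_s` contains a point `m₀` with
`⟨a, m₀⟩ > 1 + min_P ⟨a, ·⟩` for all nonzero integer vectors `a` -/
def AdjointBig {n s : ℕ} (A : Fin s → Finset (Fin n → ℤ)) : Prop :=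
  ∃ m₀ ∈ interior (convexHull ℝ (Sums A)), ∀ a : Fin n → ℤ, a ≠ 0 →
    ∃ m ∈ Sums A, 1 < ∑ j, (a j : ℝ) * (m₀ j - m j)

/-- `A` is not the union of two nonempty parts of `ℓ¹`-distance larger than `l` -/
def Conn {n : ℕ} (l : ℕ) (A : Finset (Fin n → ℤ)) : Prop :=
  ∀ U ⊆ A, U.Nonempty → U ≠ A → ∃ u ∈ U, ∃ a ∈ A, a ∉ U ∧ ∑ j, |u j - a j| ≤ l

end Pool.Agent.R870.RT
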