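import Mathlib
import Pool.Agent.R870.RT.Defs
import Pool.Agent.R870.RT.Count

set_option autoImplicit false

/-! # The lower bound for the sizes of the monomials at a point -/

namespace Pool.Agent.R870.RT

open Finset

theorem exists_prim {ι : Type*} [Fintype ι] [Nonempty ι] (v : ι → ℚ) (hv : ∀ i, v i ≠ 0) :
    ∃ (t : ℚ) (y : ι → ℤ), t ≠ 0 ∧ (∀ i, (y i : ℚ) = t * v i) ∧ gd y univ = 1 := by
  classical
  have h1 : ∀ i, ∃ z : ℤ, (z : ℚ) = ((∏ j, (v j).den : ℕ) : ℚ) * v i := by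
    intro i
    obtain ⟨e, he⟩ := Finset.dvd_prod_of_mem (fun j => (v j).den) (mem_univ i)
    refine ⟨e * (v i).num, ?_⟩
    rw [he]
    push_cast
    have h2 : ((v i).den : ℚ) * v i = (v i).num := by
      rw [mul_comm]
      exact Rat.mul_den_eq_num _
    rw [mul_right_comm, h2]
    ring
  choose z hz using h1
  have hD : ((∏ j, (v j).den : ℕ) : ℚ) ≠ 0 := by
    rw [Nat.cast_ne_zero]
    exact Finset.prod_ne_zero_iff.2 fun j _ => (v j).den_nz
  have hz0 : ∀ i, z i ≠ 0 := by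
    intro i h
    have := hz i
    rw [h, Int.cast_zero] at this
    exact mul_ne_zero hD (hv i) this.symm
  set g := gd z univ with hg
  have hg0 : g ≠ 0 := by
    intro h
    obtain ⟨i0⟩ := ‹Nonempty ι›
    have := gd_dvd z univ (mem_univ i0)
    rw [← hg, h, zero_dvd_iff] at this
    exact hz0 i0 (Int.natAbs_eq_zero.1 this)
  have h2 : ∀ i, ∃ w : ℤ, z i = g * w := fun i =>
    Int.natCast_dvd.2 (gd_dvd z univ (mem_univ i))
  choose w hw using h2
  have hgq : (g : ℚ) ≠ 0 := by exact_mod_cast hg0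
  refine ⟨((∏ j, (v j).den : ℕ) : ℚ) / g, w, div_ne_zero hD hgq, fun i => ?_, ?_⟩
  · have h3 := hz i
    rw [hw i] at h3
    push_cast at h3 ⊢
    field_simp
    rw [← h3]
    ring
  · have h3 : g = g * gd w univ := by
      conv_lhs => rw [hg]
      unfold gd
      have h4 : (fun m => (z m).natAbs) = fun m => g * (w m).natAbs := by
        funext m
        rw [hw m, Int.natAbs_mul, Int.natAbs_natCast]
      rw [h4, Finset.gcd_mul_left, normalize_eq]
    exact (Nat.eq_of_mul_eq_mul_left (Nat.pos_of_ne_zero hg0) (by rw [mul_one]; exact h3)).symm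

/-- the pairing -/
def pr {n : ℕ} (m a : Fin n → ℤ) : ℤ := ∑ j, m j * a j

/-- the minimum of the pairing -/
noncomputable def mn {n : ℕ} (A : Finset (Fin n → ℤ)) (hA : A.Nonempty) (a : Fin n → ℤ) : ℤ :=
  A.inf' hA fun m => pr m a

/-- the valuations of a point -/
def av {n : ℕ} (x : Fin n → ℚ) (p : ℕ) : Fin n → ℤ := fun j => padicValRat p (x j)

theorem padic_prod (p : ℕ) [Fact p.Prime] {ι : Type*} (s : Finset ι) (f : ι → ℚ)
    (hf : ∀ i ∈ s, f i ≠ 0) : padicValRat p (∏ i ∈ s, f i) = ∑ i ∈ s, padicValRat p (f i) := by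
  classical
  induction s using Finset.induction_on with
  | empty => simp
  | insert a s ha ih =>
    rw [prod_insert ha, sum_insert ha, padicValRat.mul (hf a (mem_insert_self _ _))
      (Finset.prod_ne_zero_iff.2 fun i hi => hf i (mem_insert_of_mem hi)),
      ih fun i hi => hf i (mem_insert_of_mem hi)]

theorem padic_mon {n : ℕ} (x : Fin n → ℚ) (hx : ∀ j, x j ≠ 0) (m : Fin n → ℤ) (p : ℕ)
    [Fact p.Prime] : padicValRat p (∏ j, x j ^ m j) = pr m (av x p) := by
  rw [padic_prod p _ _ fun j _ => zpow_ne_zero _ (hx j)]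
  unfold pr av
  refine sum_congr rfl fun j _ => ?_
  rw [padicValRat.zpow]

theorem mn_le {n : ℕ} {A : Finset (Fin n → ℤ)} (hA : A.Nonempty) (a : Fin n → ℤ)
    {m : Fin n → ℤ} (hm : m ∈ A) : mn A hA a ≤ pr m a := Finset.inf'_le _ hm

theorem val_prim {n : ℕ} (x : Fin n → ℚ) (hx : ∀ j, x j ≠ 0) (A : Finset (Fin n → ℤ))
    (hA : A.Nonempty) (t : ℚ) (ht : t ≠ 0) (y : A → ℤ)
    (hy : ∀ m : A, (y m : ℚ) = t * ∏ j, x j ^ (m : Fin n → ℤ) j) (hg : gd y univ = 1) (p : ℕ)
    (hp : p.Prime) (m : A) :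
    ((y m).natAbs.factorization p : ℤ) = pr (m : Fin n → ℤ) (av x p) - mn A hA (av x p) := by
  have : Fact p.Prime := ⟨hp⟩
  have hmon : ∀ m : A, (∏ j, x j ^ (m : Fin n → ℤ) j) ≠ 0 := fun m =>
    Finset.prod_ne_zero_iff.2 fun j _ => zpow_ne_zero _ (hx j)
  have h1 : ∀ m : A, ((y m).natAbs.factorization p : ℤ) =
      padicValRat p t + pr (m : Fin n → ℤ) (av x p) := by
    intro m
    rw [← padic_mon x hx, ← padicValRat.mul ht (hmon m), ← hy m, padicValRat.of_int, padicValInt,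
      Nat.factorization_def _ hp]
  -- some y m is prime to p
  have h2 : ∃ m : A, (y m).natAbs.factorization p = 0 := by
    by_contra hcon
    push Not at hcon
    have h3 : p ∣ gd y univ := by
      unfold gd
      apply Finset.dvd_gcd
      intro m _
      by_contra h
      exact hcon m (Nat.factorization_eq_zero_of_not_dvd h)
    rw [hg] at h3
    exact hp.one_lt.ne' (Nat.dvd_one.1 h3)
  obtain ⟨m', hm'⟩ := h2
  have h3 : mn A hA (av x p) = pr (m' : Fin n → ℤ) (av x p) := by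
    apply le_antisymm (mn_le hA _ m'.2)
    unfold mn
    rw [Finset.le_inf'_iff]
    intro b hb
    have h4 := h1 ⟨b, hb⟩
    have h5 := h1 m'
    rw [hm'] at h5
    have h6 : (0 : ℤ) ≤ ((y ⟨b, hb⟩).natAbs.factorization p : ℤ) := Int.natCast_nonneg _
    simp only at h4
    push_cast at h5
    linarith
  have h4 := h1 m'
  rw [hm'] at h4
  push_cast at h4
  rw [h1 m, h3]
  linarith

theorem log_prim {n : ℕ} (x : Fin n → ℚ) (hx : ∀ j, x j ≠ 0) (A : Finset (Fin n → ℤ))
    (hA : A.Nonempty) (t : ℚ) (ht : t ≠ 0) (y : A → ℤ)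
    (hy : ∀ m : A, (y m : ℚ) = t * ∏ j, x j ^ (m : Fin n → ℤ) j) (hg : gd y univ = 1)
    (P : Finset ℕ) (hP : ∀ p ∈ P, p.Prime) (hP2 : ∀ p : ℕ, p.Prime → p ∉ P → av x p = 0)
    (m : A) : Real.log (y m).natAbs =
      ∑ p ∈ P, (pr (m : Fin n → ℤ) (av x p) - mn A hA (av x p) : ℤ) * Real.log p := by
  rw [Real.log_nat_eq_sum_factorization]
  rw [Finsupp.sum_of_support_subset _ (s := P) _ _ (by intro i _; simp)]
  · refine sum_congr rfl fun p hp => ?_
    rw [← val_prim x hx A hA t ht y hy hg p (hP p hp) m]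
    push_cast
    rfl
  · intro p hp
    by_contra h
    have hpp : p.Prime := by
      rw [Nat.support_factorization] at hp
      exact Nat.prime_of_mem_primeFactors hp
    have h1 := val_prim x hx A hA t ht y hy hg p hpp m
    have h0 : ∀ m : Fin n → ℤ, pr m 0 = 0 := fun m => by simp [pr]
    have h2 : mn A hA 0 = 0 := by
      unfold mn
      apply le_antisymm
      · obtain ⟨b, hb⟩ := hA
        exact (Finset.inf'_le _ hb).trans_eq (h0 b)
      · rw [Finset.le_inf'_iff]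
        intro b _
        rw [h0 b]
    rw [hP2 p hpp h, h0, h2, sub_zero] at h1
    rw [Finsupp.mem_support_iff] at hp
    exact hp (by exact_mod_cast h1)

/-- the function `ψ(a) = ⟨a, m₀⟩ - min_P ⟨a, ·⟩` -/
noncomputable def psi {n s : ℕ} (A : Fin s → Finset (Fin n → ℤ)) (hA : ∀ i, (A i).Nonempty)
    (m₀ : Fin n → ℝ) (a : Fin n → ℤ) : ℝ := ∑ j, (a j : ℝ) * m₀ j - ∑ i, (mn (A i) (hA i) a : ℝ)

theorem psi_zero {n s : ℕ} (A : Fin s → Finset (Fin n → ℤ)) (hA : ∀ i, (A i).Nonempty)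
    (m₀ : Fin n → ℝ) : psi A hA m₀ 0 = 0 := by
  unfold psi
  have h0 : ∀ m : Fin n → ℤ, pr m 0 = 0 := fun m => by simp [pr]
  have h2 : ∀ i, mn (A i) (hA i) 0 = 0 := by
    intro i
    unfold mn
    apply le_antisymm
    · obtain ⟨b, hb⟩ := hA i
      exact (Finset.inf'_le _ hb).trans_eq (h0 b)
    · rw [Finset.le_inf'_iff]
      intro b _
      rw [h0 b]
  simp [h2]

theorem sums_ge {n s : ℕ} (A : Fin s → Finset (Fin n → ℤ)) (hA : ∀ i, (A i).Nonempty)
    (a : Fin n → ℤ) {m : Fin n → ℝ} (hm : m ∈ Sums A) :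
    ∑ i, (mn (A i) (hA i) a : ℝ) ≤ ∑ j, (a j : ℝ) * m j := by
  obtain ⟨σ, hσ⟩ := hm
  have h1 : ∑ j, (a j : ℝ) * m j = ∑ i, ((pr (σ i : Fin n → ℤ) a : ℤ) : ℝ) := by
    unfold pr
    push_cast
    rw [sum_comm]
    refine sum_congr rfl fun j _ => ?_
    rw [hσ j, mul_sum]
    exact sum_congr rfl fun i _ => mul_comm _ _
  rw [h1]
  apply sum_le_sum
  intro i _
  exact_mod_cast mn_le (hA i) a (σ i).2

theorem hull_ge {n s : ℕ} (A : Fin s → Finset (Fin n → ℤ)) (hA : ∀ i, (A i).Nonempty)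
    (a : Fin n → ℤ) {m : Fin n → ℝ} (hm : m ∈ convexHull ℝ (Sums A)) :
    ∑ i, (mn (A i) (hA i) a : ℝ) ≤ ∑ j, (a j : ℝ) * m j := by
  have h1 : convexHull ℝ (Sums A) ⊆
      {m : Fin n → ℝ | ∑ i, (mn (A i) (hA i) a : ℝ) ≤ ∑ j, (a j : ℝ) * m j} := by
    apply convexHull_min
    · intro m hm
      exact sums_ge A hA a hm
    · intro u hu v hv α β hα hβ hαβ
      simp only [Set.mem_ofPred_eq] at hu hv ⊢
      have h2 : ∑ j, (a j : ℝ) * (α • u + β • v) j =
          α * ∑ j, (a j : ℝ) * u j + β * ∑ j, (a j : ℝ) * v j := by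
        rw [mul_sum, mul_sum, ← sum_add_distrib]
        refine sum_congr rfl fun j _ => ?_
        simp only [Pi.add_apply, Pi.smul_apply, smul_eq_mul]
        ring
      rw [h2]
      have h3 := mul_le_mul_of_nonneg_left hu hα
      have h4 := mul_le_mul_of_nonneg_left hv hβ
      have h5 : α * ∑ i, (mn (A i) (hA i) a : ℝ) + β * ∑ i, (mn (A i) (hA i) a : ℝ) =
          ∑ i, (mn (A i) (hA i) a : ℝ) := by rw [← add_mul, hαβ, one_mul]
      linarith
  exact h1 hm

/-- some choice of monomials is large -/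
theorem exists_sigma {n s : ℕ} (A : Fin s → Finset (Fin n → ℤ)) (hA : ∀ i, (A i).Nonempty)
    (m₀ : Fin n → ℝ) (hm₀ : m₀ ∈ convexHull ℝ (Sums A)) (x : Fin n → ℚ) (hx : ∀ j, x j ≠ 0)
    (t : Fin s → ℚ) (ht : ∀ i, t i ≠ 0) (y : (i : Fin s) → A i → ℤ)
    (hy : ∀ i, ∀ m : A i, (y i m : ℚ) = t i * ∏ j, x j ^ (m : Fin n → ℤ) j)
    (hg : ∀ i, gd (y i) univ = 1)
    (P : Finset ℕ) (hP : ∀ p ∈ P, p.Prime) (hP2 : ∀ p : ℕ, p.Prime → p ∉ P → av x p = 0) :
    ∃ σ : (i : Fin s) → A i, ∑ p ∈ P, psi A hA m₀ (av x p) * Real.log p ≤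
      ∑ i, Real.log (y i (σ i)).natAbs := by
  by_contra hcon
  push Not at hcon
  have h1 : convexHull ℝ (Sums A) ⊆
      {m : Fin n → ℝ | ∑ p ∈ P, (∑ j, (av x p j : ℝ) * m j) * Real.log p <
        ∑ p ∈ P, (∑ j, (av x p j : ℝ) * m₀ j) * Real.log p} := by
    apply convexHull_min
    · rintro m ⟨σ, hσ⟩
      have h2 := hcon σ
      have h3 : ∑ i, Real.log (y i (σ i)).natAbs =
          ∑ p ∈ P, (∑ j, (av x p j : ℝ) * m j) * Real.log p -
          ∑ p ∈ P, (∑ i, (mn (A i) (hA i) (av x p) : ℝ)) * Real.log p := by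
        have h4 : ∀ i, Real.log (y i (σ i)).natAbs =
            ∑ p ∈ P, (pr (σ i : Fin n → ℤ) (av x p) - mn (A i) (hA i) (av x p) : ℤ) *
              Real.log p := fun i =>
          log_prim x hx (A i) (hA i) (t i) (ht i) (y i) (hy i) (hg i) P hP hP2 (σ i)
        rw [sum_congr rfl fun i _ => h4 i, sum_comm, ← sum_sub_distrib]
        refine sum_congr rfl fun p _ => ?_
        rw [← sum_mul, ← sub_mul]
        congr 1
        push_cast
        rw [sum_sub_distrib]
        congr 1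
        unfold pr
        push_cast
        rw [sum_comm]
        refine sum_congr rfl fun j _ => ?_
        rw [hσ j, mul_sum]
        exact sum_congr rfl fun i _ => mul_comm _ _
      have h5 : ∑ p ∈ P, psi A hA m₀ (av x p) * Real.log p =
          ∑ p ∈ P, (∑ j, (av x p j : ℝ) * m₀ j) * Real.log p -
          ∑ p ∈ P, (∑ i, (mn (A i) (hA i) (av x p) : ℝ)) * Real.log p := by
        rw [← sum_sub_distrib]
        refine sum_congr rfl fun p _ => ?_
        unfold psi
        ring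
      rw [h3, h5] at h2
      simp only [Set.mem_ofPred_eq]
      linarith
    · intro u hu v hv α β hα hβ hαβ
      simp only [Set.mem_ofPred_eq] at hu hv ⊢
      set R := ∑ p ∈ P, (∑ j, (av x p j : ℝ) * m₀ j) * Real.log p with hR
      have h2 : ∑ p ∈ P, (∑ j, (av x p j : ℝ) * (α • u + β • v) j) * Real.log p =
          α * ∑ p ∈ P, (∑ j, (av x p j : ℝ) * u j) * Real.log p +
          β * ∑ p ∈ P, (∑ j, (av x p j : ℝ) * v j) * Real.log p := by
        rw [mul_sum, mul_sum, ← sum_add_distrib]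
        refine sum_congr rfl fun p _ => ?_
        rw [← mul_assoc, ← mul_assoc, ← add_mul, mul_sum, mul_sum, ← sum_add_distrib]
        congr 1
        refine sum_congr rfl fun j _ => ?_
        simp only [Pi.add_apply, Pi.smul_apply, smul_eq_mul]
        ring
      rw [h2]
      rcases eq_or_lt_of_le hα with h0 | h0
      · rw [← h0, zero_add] at hαβ
        rw [← h0, hαβ]
        linarith
      · have h3 := mul_lt_mul_of_pos_left hu h0
        have h4 := mul_le_mul_of_nonneg_left hv.le hβ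
        have h5 : α * R + β * R = R := by rw [← add_mul, hαβ, one_mul]
        linarith
  have h6 := h1 hm₀
  rw [Set.mem_ofPred_eq] at h6
  exact lt_irrefl _ h6

end Pool.Agent.R870.RT
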