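import Mathlib
import Pool.Agent.R870.RT.Low

set_option autoImplicit false

/-! # The sum over the points of the torus -/

namespace Pool.Agent.R870.RT

open Finset

/-- the bounds for `ψ` -/
theorem psi_gt_one {n s : ℕ} (A : Fin s → Finset (Fin n → ℤ)) (hA : ∀ i, (A i).Nonempty)
    (m₀ : Fin n → ℝ) (a : Fin n → ℤ)
    (ha : ∃ m ∈ Sums A, 1 < ∑ j, (a j : ℝ) * (m₀ j - m j)) : 1 < psi A hA m₀ a := by
  obtain ⟨m, hm, h⟩ := ha
  have h1 := sums_ge A hA a hm
  have h2 : ∑ j, (a j : ℝ) * (m₀ j - m j) = ∑ j, (a j : ℝ) * m₀ j - ∑ j, (a j : ℝ) * m j := by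
    rw [← sum_sub_distrib]
    exact sum_congr rfl fun j _ => by ring
  unfold psi
  linarith

theorem psi_growth {n s : ℕ} (A : Fin s → Finset (Fin n → ℤ)) (hA : ∀ i, (A i).Nonempty)
    (m₀ : Fin n → ℝ) (hm₀ : m₀ ∈ interior (convexHull ℝ (Sums A))) :
    ∃ ρ : ℝ, 0 < ρ ∧ ∀ a : Fin n → ℤ, ρ * ∑ j, |(a j : ℝ)| ≤ psi A hA m₀ a := by
  obtain ⟨ρ, hρ, hball⟩ := Metric.mem_nhds_iff.1 (mem_interior_iff_mem_nhds.1 hm₀)
  refine ⟨ρ / 2, by positivity, fun a => ?_⟩
  set m : Fin n → ℝ := fun j => m₀ j - ρ / 2 * SignType.sign (a j : ℝ) with hm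
  have h1 : m ∈ convexHull ℝ (Sums A) := by
    apply hball
    rw [Metric.mem_ball]
    refine lt_of_le_of_lt ?_ (half_lt_self hρ)
    rw [dist_pi_le_iff (by positivity)]
    intro j
    rw [hm, Real.dist_eq]
    simp only
    rw [sub_sub_cancel_left, abs_neg, abs_mul, abs_of_nonneg (by positivity : (0:ℝ) ≤ ρ / 2)]
    have h2 : |((SignType.sign (a j : ℝ) : SignType) : ℝ)| ≤ 1 := by
      rcases lt_trichotomy (a j : ℝ) 0 with h | h | h
      · rw [sign_neg h]; simp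
      · rw [h]; simp
      · rw [sign_pos h]; simp
    nlinarith
  have h2 := hull_ge A hA a h1
  unfold psi
  have h3 : ∑ j, (a j : ℝ) * m j = ∑ j, (a j : ℝ) * m₀ j - ρ / 2 * ∑ j, |(a j : ℝ)| := by
    rw [mul_sum, ← sum_sub_distrib]
    refine sum_congr rfl fun j _ => ?_
    rw [hm]
    simp only
    have h4 : (a j : ℝ) * ((SignType.sign (a j : ℝ) : SignType) : ℝ) = |(a j : ℝ)| := by
      exact self_mul_sign _
    rw [mul_sub, ← h4]
    ring
  linarith

/-- the combined lower bound -/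
theorem psi_low {n s : ℕ} (A : Fin s → Finset (Fin n → ℤ)) (hA : ∀ i, (A i).Nonempty)
    (m₀ : Fin n → ℝ) (hm₀ : m₀ ∈ interior (convexHull ℝ (Sums A)))
    (hm : ∀ a : Fin n → ℤ, a ≠ 0 → ∃ m ∈ Sums A, 1 < ∑ j, (a j : ℝ) * (m₀ j - m j)) :
    ∃ δ ρ : ℝ, 0 < δ ∧ 0 < ρ ∧ ∀ a : Fin n → ℤ, a ≠ 0 →
      1 + δ + ρ * ∑ j, |(a j : ℝ)| ≤ psi A hA m₀ a := by
  classical
  obtain ⟨ρ, hρ, hgr⟩ := psi_growth A hA m₀ hm₀
  -- the small vectors
  set N : ℕ := ⌈2 / ρ⌉₊ with hN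
  set F : Finset (Fin n → ℤ) := (Fintype.piFinset fun _ => Finset.Icc (-(N : ℤ)) N).filter
    (fun a => a ≠ 0) with hF
  have h1 : ∃ δ : ℝ, 0 < δ ∧ δ ≤ 1 ∧ ∀ a ∈ F, 1 + δ ≤ psi A hA m₀ a := by
    rcases F.eq_empty_or_nonempty with h | h
    · refine ⟨1, one_pos, le_refl _, fun a ha => ?_⟩
      rw [h] at ha
      exact absurd ha (notMem_empty a)
    · obtain ⟨b, hb, hmin⟩ := Finset.exists_min_image F (fun a => psi A hA m₀ a) h
      have hb1 := psi_gt_one A hA m₀ b (hm b (Finset.mem_filter.1 hb).2)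
      refine ⟨min (psi A hA m₀ b - 1) 1, lt_min (by linarith) one_pos, min_le_right _ _,
        fun a ha => ?_⟩
      have h2 := hmin a ha
      have h3 := min_le_left (psi A hA m₀ b - 1) 1
      linarith
  obtain ⟨δ, hδ, hδ1, hsmall⟩ := h1
  have h2 : ∀ a : Fin n → ℤ, a ≠ 0 → 1 + δ ≤ psi A hA m₀ a := by
    intro a ha
    by_cases haF : a ∈ F
    · exact hsmall a haF
    · rw [hF, mem_filter, not_and_or] at haF
      rcases haF with haF | haF
      · rw [Fintype.mem_piFinset] at haF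
        push Not at haF
        obtain ⟨j, hj⟩ := haF
        rw [mem_Icc, ← abs_le, not_le] at hj
        have h3 : (N : ℝ) ≤ |(a j : ℝ)| := by
          have : ((N : ℤ) : ℝ) ≤ ((|a j| : ℤ) : ℝ) := by exact_mod_cast hj.le
          rwa [Int.cast_natCast, Int.cast_abs] at this
        have h4 : |(a j : ℝ)| ≤ ∑ j, |(a j : ℝ)| :=
          Finset.single_le_sum (f := fun j => |(a j : ℝ)|) (fun j _ => abs_nonneg _) (mem_univ j)
        have h5 : 2 / ρ ≤ N := Nat.le_ceil _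
        have h6 : 2 ≤ ρ * ∑ j, |(a j : ℝ)| := by
          rw [div_le_iff₀ hρ] at h5
          nlinarith
        have h7 := hgr a
        linarith
      · exact absurd ha haF
  -- convex combination
  set θ : ℝ := (1 + δ / 2) / (1 + δ) with hθ
  have hθ1 : θ < 1 := by rw [hθ, div_lt_one (by positivity)]; linarith
  have hθ0 : 0 < θ := by rw [hθ]; positivity
  refine ⟨δ / 2, (1 - θ) * ρ, by positivity, mul_pos (by linarith) hρ, fun a ha => ?_⟩
  have h3 := mul_le_mul_of_nonneg_left (h2 a ha) hθ0.le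
  have h4 := mul_le_mul_of_nonneg_left (hgr a) (by linarith : (0 : ℝ) ≤ 1 - θ)
  have h5 : θ * (1 + δ) = 1 + δ / 2 := by rw [hθ]; field_simp
  have h6 : θ * psi A hA m₀ a + (1 - θ) * psi A hA m₀ a = psi A hA m₀ a := by ring
  rw [h5] at h3
  rw [← mul_assoc] at h4
  linarith

/-- geometric series over `ℤ` -/
theorem geom_bound (ρ : ℝ) (hρ : 0 < ρ) : ∃ g : ℝ, 0 ≤ g ∧ ∀ Z : Finset ℤ,
    ∑ k ∈ Z, (2 : ℝ) ^ (-(ρ * |(k : ℝ)|)) ≤ g := by
  have hr0 : (0 : ℝ) ≤ (2 : ℝ) ^ (-ρ) := by positivity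
  have hr1 : (2 : ℝ) ^ (-ρ) < 1 := Real.rpow_lt_one_of_one_lt_of_neg (by norm_num) (by linarith)
  have h1 : Summable fun k : ℕ => ((2 : ℝ) ^ (-ρ)) ^ k := summable_geometric_of_lt_one hr0 hr1
  have h2 : Summable fun k : ℤ => (2 : ℝ) ^ (-(ρ * |(k : ℝ)|)) := by
    rw [summable_int_iff_summable_nat_and_neg]
    constructor
    · refine h1.congr fun k => ?_
      rw [Int.cast_natCast, abs_of_nonneg (Nat.cast_nonneg k), ← Real.rpow_natCast,
        ← Real.rpow_mul (by norm_num)]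
      congr 1
      ring
    · refine h1.congr fun k => ?_
      rw [Int.cast_neg, Int.cast_natCast, abs_neg, abs_of_nonneg (Nat.cast_nonneg k),
        ← Real.rpow_natCast, ← Real.rpow_mul (by norm_num)]
      congr 1
      ring
  exact ⟨_, tsum_nonneg fun k => by positivity, fun Z => h2.sum_le_tsum Z fun k _ => by positivity⟩

/-- the local factor -/
theorem local_bound {n s : ℕ} (A : Fin s → Finset (Fin n → ℤ)) (hA : ∀ i, (A i).Nonempty)
    (m₀ : Fin n → ℝ) (δ ρ : ℝ) (hρ : 0 < ρ)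
    (hpsi : ∀ a : Fin n → ℤ, a ≠ 0 → 1 + δ + ρ * ∑ j, |(a j : ℝ)| ≤ psi A hA m₀ a) :
    ∃ G : ℝ, 0 ≤ G ∧ ∀ p : ℕ, 2 ≤ p → ∀ Z : Finset (Fin n → ℤ),
      ∑ a ∈ Z, (p : ℝ) ^ (-psi A hA m₀ a) ≤ 1 + G * (p : ℝ) ^ (-(1 + δ)) := by
  classical
  obtain ⟨g, hg0, hg⟩ := geom_bound ρ hρ
  refine ⟨g ^ n, by positivity, fun p hp Z => ?_⟩
  have hpr : (2 : ℝ) ≤ p := by exact_mod_cast hp
  have hp0 : (0 : ℝ) < p := by linarith
  have h1 : ∀ a ∈ Z, (p : ℝ) ^ (-psi A hA m₀ a) ≤ (if a = 0 then 1 else 0) +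
      (p : ℝ) ^ (-(1 + δ)) * ∏ j, (2 : ℝ) ^ (-(ρ * |(a j : ℝ)|)) := by
    intro a _
    by_cases ha : a = 0
    · rw [if_pos ha, ha, psi_zero, neg_zero, Real.rpow_zero]
      have : (0 : ℝ) ≤ (p : ℝ) ^ (-(1 + δ)) * ∏ j : Fin n, (2 : ℝ) ^ (-(ρ * |((0 : Fin n → ℤ) j : ℝ)|)) :=
        by positivity
      linarith
    · rw [if_neg ha, zero_add]
      have h2 := hpsi a ha
      have h3 : (p : ℝ) ^ (-psi A hA m₀ a) ≤
          (p : ℝ) ^ (-(1 + δ) + -(ρ * ∑ j, |(a j : ℝ)|)) :=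
        Real.rpow_le_rpow_of_exponent_le (by linarith) (by linarith)
      rw [Real.rpow_add hp0] at h3
      refine h3.trans ?_
      apply mul_le_mul_of_nonneg_left _ (Real.rpow_nonneg hp0.le _)
      have h4 : (p : ℝ) ^ (-(ρ * ∑ j, |(a j : ℝ)|)) ≤ (2 : ℝ) ^ (-(ρ * ∑ j, |(a j : ℝ)|)) := by
        apply Real.rpow_le_rpow_of_nonpos (by norm_num) hpr
        have : 0 ≤ ρ * ∑ j, |(a j : ℝ)| := mul_nonneg hρ.le (sum_nonneg fun j _ => abs_nonneg _)
        linarith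
      refine h4.trans (le_of_eq ?_)
      rw [← Real.rpow_sum_of_pos (by norm_num)]
      congr 1
      rw [mul_sum, sum_neg_distrib]
  refine (sum_le_sum h1).trans ?_
  rw [sum_add_distrib]
  apply add_le_add
  · rw [sum_ite_eq']
    split_ifs
    · exact le_refl _
    · exact zero_le_one
  · rw [← mul_sum, mul_comm]
    apply mul_le_mul_of_nonneg_right _ (Real.rpow_nonneg hp0.le _)
    have h2 : Z ⊆ Fintype.piFinset fun j : Fin n => Z.image (fun a => a j) := by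
      intro a ha
      rw [Fintype.mem_piFinset]
      exact fun j => mem_image_of_mem _ ha
    refine (sum_le_sum_of_subset_of_nonneg h2 fun a _ _ =>
      prod_nonneg fun j _ => by positivity).trans ?_
    rw [← prod_univ_sum (fun j : Fin n => Z.image (fun a : Fin n → ℤ => a j))
      (fun _ (k : ℤ) => (2 : ℝ) ^ (-(ρ * |(k : ℝ)|)))]
    refine (prod_le_prod (fun j _ => sum_nonneg fun k _ => by positivity)
      fun j _ => hg _).trans (le_of_eq ?_)
    rw [prod_const, card_univ, Fintype.card_fin]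

/-- a rational number is determined by its sign and its valuations -/
theorem rat_ext {x y : ℚ} (hx : x ≠ 0) (hy : y ≠ 0) (hs : 0 < x ↔ 0 < y)
    (hv : ∀ p : ℕ, p.Prime → padicValRat p x = padicValRat p y) : x = y := by
  set q := x / y with hq
  have hq0 : q ≠ 0 := div_ne_zero hx hy
  have hqpos : 0 < q := by
    rcases lt_or_gt_of_ne hx with h | h
    · have hy' : y < 0 := by
        rcases lt_or_gt_of_ne hy with h' | h'
        · exact h'
        · exact absurd (hs.2 h') (not_lt.2 h.le)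
      exact div_pos_of_neg_of_neg h hy'
    · exact div_pos h (hs.1 h)
  have hval : ∀ p : ℕ, p.Prime → padicValRat p q = 0 := by
    intro p hp
    have : Fact p.Prime := ⟨hp⟩
    rw [hq, padicValRat.div hx hy, hv p hp, sub_self]
  have hnum : q.num.natAbs = 1 := by
    by_contra h
    obtain ⟨p, hp, hpd⟩ := Nat.exists_prime_and_dvd h
    have : Fact p.Prime := ⟨hp⟩
    have h1 := hval p hp
    rw [padicValRat_def] at h1
    have h2 : ¬ p ∣ q.den := fun h3 => by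
      have h4 := q.reduced
      have h5 := Nat.dvd_gcd hpd h3
      rw [h4] at h5
      exact hp.one_lt.ne' (Nat.dvd_one.1 h5)
    rw [padicValNat.eq_zero_of_not_dvd h2] at h1
    have h3 : padicValInt p q.num = 0 := by simpa using h1
    unfold padicValInt at h3
    have h4 := one_le_padicValNat_of_dvd (Int.natAbs_ne_zero.2 (Rat.num_ne_zero.2 hq0)) hpd
    omega
  have hden : q.den = 1 := by
    by_contra h
    obtain ⟨p, hp, hpd⟩ := Nat.exists_prime_and_dvd h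
    have : Fact p.Prime := ⟨hp⟩
    have h1 := hval p hp
    rw [padicValRat_def] at h1
    have h2 : ¬ p ∣ q.num.natAbs := fun h3 => by
      rw [hnum] at h3
      exact hp.one_lt.ne' (Nat.dvd_one.1 h3)
    unfold padicValInt at h1
    rw [padicValNat.eq_zero_of_not_dvd h2] at h1
    have h4 := one_le_padicValNat_of_dvd q.den_nz hpd
    omega
  have h1 : q = 1 := by
    have h2 : q.num = 1 := by
      have h3 : 0 < q.num := Rat.num_pos.2 hqpos
      omega
    rw [← Rat.num_div_den q, h2, hden]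
    norm_num
  rw [hq, div_eq_one_iff_eq hy] at h1
  exact h1

/-- the sum over the points -/
theorem sum_points {n s : ℕ} (A : Fin s → Finset (Fin n → ℤ)) (hA : ∀ i, (A i).Nonempty)
    (m₀ : Fin n → ℝ) (hm₀ : m₀ ∈ interior (convexHull ℝ (Sums A)))
    (hm : ∀ a : Fin n → ℤ, a ≠ 0 → ∃ m ∈ Sums A, 1 < ∑ j, (a j : ℝ) * (m₀ j - m j)) :
    ∃ K : ℝ, ∀ (Z : Finset (Fin n → ℚ)) (P : Finset ℕ), (∀ x ∈ Z, ∀ j, x j ≠ 0) →
      (∀ p ∈ P, p.Prime) → (∀ x ∈ Z, ∀ p : ℕ, p.Prime → p ∉ P → av x p = 0) →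
      ∑ x ∈ Z, ∏ p ∈ P, (p : ℝ) ^ (-psi A hA m₀ (av x p)) ≤ K := by
  classical
  obtain ⟨δ, ρ, hδ, hρ, hpsi⟩ := psi_low A hA m₀ hm₀ hm
  obtain ⟨G, hG, hloc⟩ := local_bound A hA m₀ δ ρ hρ hpsi
  have hsum : Summable fun p : ℕ => (p : ℝ) ^ (-(1 + δ)) :=
    Real.summable_nat_rpow.2 (by linarith)
  refine ⟨2 ^ n * Real.exp (G * ∑' p : ℕ, (p : ℝ) ^ (-(1 + δ))), fun Z P hZ hP hP2 => ?_⟩
  -- the coordinates
  set Φ : (Fin n → ℚ) → (Fin n → Bool) × (P → (Fin n → ℤ)) :=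
    fun x => (fun j => decide (0 < x j), fun p => av x p) with hΦ
  have hinj : Set.InjOn Φ (Z : Set (Fin n → ℚ)) := by
    intro x hx y hy hxy
    have hx' := mem_coe.1 hx
    have hy' := mem_coe.1 hy
    rw [hΦ] at hxy
    simp only [Prod.mk.injEq] at hxy
    funext j
    apply rat_ext (hZ x hx' j) (hZ y hy' j)
    · have := congrFun hxy.1 j
      simpa using this
    · intro p hp
      by_cases hpP : p ∈ P
      · have := congrFun (congrFun hxy.2 ⟨p, hpP⟩) j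
        exact this
      · have h1 := congrFun (hP2 x hx' p hp hpP) j
        have h2 := congrFun (hP2 y hy' p hp hpP) j
        unfold av at h1 h2
        rw [h1, h2]
  set g : (Fin n → Bool) × (P → (Fin n → ℤ)) → ℝ :=
    fun z => ∏ p : P, ((p : ℕ) : ℝ) ^ (-psi A hA m₀ (z.2 p)) with hg
  have h1 : ∑ x ∈ Z, ∏ p ∈ P, (p : ℝ) ^ (-psi A hA m₀ (av x p)) = ∑ z ∈ Z.image Φ, g z := by
    rw [sum_image hinj]
    refine sum_congr rfl fun x _ => ?_
    rw [hg, hΦ]
    simp only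
    rw [← prod_coe_sort P (fun p : ℕ => (p : ℝ) ^ (-psi A hA m₀ (av x p)))]
  rw [h1]
  have h2 : Z.image Φ ⊆ (univ : Finset (Fin n → Bool)) ×ˢ
      (Fintype.piFinset fun p : P => Z.image (fun x => av x p)) := by
    intro z hz
    obtain ⟨x, hx, rfl⟩ := mem_image.1 hz
    rw [mem_product]
    refine ⟨mem_univ _, ?_⟩
    rw [Fintype.mem_piFinset]
    intro p
    exact mem_image_of_mem (fun x => av x p) hx
  refine (sum_le_sum_of_subset_of_nonneg h2 fun z _ _ => prod_nonneg fun p _ =>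
    Real.rpow_nonneg (Nat.cast_nonneg _) _).trans ?_
  rw [sum_product]
  simp only [hg]
  rw [sum_const, card_univ, Fintype.card_fun, Fintype.card_bool, Fintype.card_fin, nsmul_eq_mul,
    ← prod_univ_sum (fun p : P => Z.image (fun x => av x p))
      (fun (p : P) (a : Fin n → ℤ) => ((p : ℕ) : ℝ) ^ (-psi A hA m₀ a))]
  push_cast
  apply mul_le_mul_of_nonneg_left _ (by positivity)
  have h3 : ∏ p : P, ∑ a ∈ Z.image (fun x => av x p), ((p : ℕ) : ℝ) ^ (-psi A hA m₀ a) ≤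
      ∏ p : P, Real.exp (G * ((p : ℕ) : ℝ) ^ (-(1 + δ))) := by
    apply prod_le_prod
    · intro p _
      exact sum_nonneg fun a _ => Real.rpow_nonneg (Nat.cast_nonneg _) _
    · intro p _
      refine (hloc p (hP p p.2).two_le _).trans ?_
      rw [add_comm]
      exact Real.add_one_le_exp _
  refine h3.trans ?_
  rw [prod_coe_sort P (fun p : ℕ => Real.exp (G * (p : ℝ) ^ (-(1 + δ)))), ← Real.exp_sum,
    ← mul_sum]
  apply Real.exp_le_exp.2
  apply mul_le_mul_of_nonneg_left _ hG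
  exact hsum.sum_le_tsum P fun p _ => Real.rpow_nonneg (Nat.cast_nonneg _) _

end Pool.Agent.R870.RT
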