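import Mathlib
import Pool.Agent.R870.RT.Sum

set_option autoImplicit false

/-! # Random systems of Laurent polynomials with given supports -/

namespace Pool.Agent.R870.RT

open Finset

/-- the height of a monomial -/
theorem num_mon_le {n : ℕ} (x : Fin n → ℚ) (B : ℕ)
    (hxB : ∀ j, |(x j).num| ≤ B ∧ (x j).den ≤ B) (hB : 1 ≤ B) (k : Fin n → ℤ) (l : ℕ)
    (hk : ∑ j, |k j| ≤ l) : (∏ j, x j ^ k j).num.natAbs ≤ B ^ l := by
  have h1 : ((∏ j, x j ^ k j).num.natAbs : ℝ) ≤ Height.mulHeight₁ (∏ j, x j ^ k j) := by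
    rw [Rat.mulHeight₁_eq_max]
    exact_mod_cast le_max_left _ _
  have h2 : Height.mulHeight₁ (∏ j, x j ^ k j) ≤ ∏ j, Height.mulHeight₁ (x j ^ k j) :=
    Height.mulHeight₁_prod_le _ _
  have h3 : ∏ j, Height.mulHeight₁ (x j ^ k j) ≤ ∏ j, (B : ℝ) ^ (k j).natAbs := by
    apply prod_le_prod
    · intro j _
      exact Height.mulHeight₁_nonneg _
    · intro j _
      rw [Height.mulHeight₁_zpow]
      apply pow_le_pow_left₀ (Height.mulHeight₁_nonneg _)
      rw [Rat.mulHeight₁_eq_max]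
      have h4 : (x j).num.natAbs ≤ B := by
        have := (hxB j).1
        rw [Int.abs_eq_natAbs] at this
        exact_mod_cast this
      exact_mod_cast max_le h4 (hxB j).2
  rw [prod_pow_eq_pow_sum] at h3
  have h4 : ∑ j, (k j).natAbs ≤ l := by
    have h5 : ((∑ j, (k j).natAbs : ℕ) : ℤ) = ∑ j, |k j| := by
      push_cast
      rfl
    have : ((∑ j, (k j).natAbs : ℕ) : ℤ) ≤ l := by rw [h5]; exact hk
    exact_mod_cast this
  have h5 : (B : ℝ) ^ (∑ j, (k j).natAbs) ≤ (B : ℝ) ^ l :=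
    pow_le_pow_right₀ (by exact_mod_cast hB) h4
  have h6 := h1.trans (h2.trans (h3.trans h5))
  exact_mod_cast h6

/-- the condition for the count of the solutions -/
theorem adj_of_conn {n : ℕ} (A : Finset (Fin n → ℤ)) (l : ℕ) (hA : Conn l A) (x : Fin n → ℚ)
    (hx : ∀ j, x j ≠ 0) (B H : ℕ) (hxB : ∀ j, |(x j).num| ≤ B ∧ (x j).den ≤ B) (hB : 1 ≤ B)
    (hBH : B ^ l ≤ H) (t : ℚ) (ht : t ≠ 0) (y : A → ℤ)
    (hy : ∀ m : A, (y m : ℚ) = t * ∏ j, x j ^ (m : Fin n → ℤ) j) :
    ∀ U : Finset A, U.Nonempty → U ≠ univ → ∃ u ∈ U, ∃ a, a ∉ U ∧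
      (y u).natAbs ≤ H * Nat.gcd (y u).natAbs (y a).natAbs := by
  classical
  intro U hUn hU
  obtain ⟨u, hu, a, haA, ha, hua⟩ := hA (U.map ⟨Subtype.val, Subtype.val_injective⟩)
    (by
      intro m hm
      obtain ⟨m', _, rfl⟩ := mem_map.1 hm
      exact m'.2)
    (hUn.map) (by
      intro h
      apply hU
      apply eq_univ_of_forall
      intro m
      have h1 : (m : Fin n → ℤ) ∈ U.map ⟨Subtype.val, Subtype.val_injective⟩ := by
        rw [h]
        exact m.2
      obtain ⟨m', hm', he⟩ := mem_map.1 h1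
      have : m' = m := Subtype.ext he
      rw [← this]
      exact hm')
  obtain ⟨u', hu', rfl⟩ := mem_map.1 hu
  refine ⟨u', hu', ⟨a, haA⟩, fun h => ha (mem_map.2 ⟨_, h, rfl⟩), ?_⟩
  simp only [Function.Embedding.coeFn_mk] at hua
  have hmon : ∀ m : A, (∏ j, x j ^ (m : Fin n → ℤ) j) ≠ 0 := fun m =>
    Finset.prod_ne_zero_iff.2 fun j _ => zpow_ne_zero _ (hx j)
  have hy0 : ∀ m : A, y m ≠ 0 := by
    intro m h
    have := hy m
    rw [h, Int.cast_zero] at this
    exact mul_ne_zero ht (hmon m) this.symm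
  set q : ℚ := ∏ j, x j ^ ((u' : Fin n → ℤ) j - a j) with hq
  have hqe : (y u' : ℚ) = q * y ⟨a, haA⟩ := by
    rw [hy u', hy ⟨a, haA⟩, hq, mul_left_comm, ← prod_mul_distrib]
    congr 1
    refine prod_congr rfl fun j _ => ?_
    rw [← zpow_add₀ (hx j)]
    congr 1
    ring
  have hnum := num_mon_le x B hxB hB (fun j => (u' : Fin n → ℤ) j - a j) l hua
  rw [← hq] at hnum
  have h1 : y u' * q.den = q.num * y ⟨a, haA⟩ := by
    have h2 : (y u' : ℚ) * q.den = q.num * y ⟨a, haA⟩ := by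
      rw [hqe, mul_right_comm, Rat.mul_den_eq_num]
    exact_mod_cast h2
  have h2 : (y u').natAbs * q.den = q.num.natAbs * (y ⟨a, haA⟩).natAbs := by
    have := congrArg Int.natAbs h1
    rwa [Int.natAbs_mul, Int.natAbs_mul, Int.natAbs_natCast] at this
  have h3 : (y u').natAbs ∣ q.num.natAbs * Nat.gcd (y u').natAbs (y ⟨a, haA⟩).natAbs := by
    rw [← Nat.gcd_mul_left]
    apply Nat.dvd_gcd
    · exact dvd_mul_left _ _
    · rw [← h2]
      exact dvd_mul_right _ _
  have hq0 : q ≠ 0 := by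
    rw [hq]
    exact Finset.prod_ne_zero_iff.2 fun j _ => zpow_ne_zero _ (hx j)
  have h4 : 0 < q.num.natAbs := Int.natAbs_pos.2 (Rat.num_ne_zero.2 hq0)
  have h5 : 0 < Nat.gcd (y u').natAbs (y ⟨a, haA⟩).natAbs :=
    Nat.gcd_pos_of_pos_left _ (Int.natAbs_pos.2 (hy0 u'))
  exact (Nat.le_of_dvd (Nat.mul_pos h4 h5) h3).trans
    (Nat.mul_le_mul_right _ (hnum.trans hBH))

/-- the systems that vanish at `x` -/
noncomputable def zer {n s : ℕ} (A : Fin s → Finset (Fin n → ℤ)) (H : ℕ) (x : Fin n → ℚ) :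
    Finset ((i : Fin s) → A i → ℤ) := by
  classical
  exact (Fintype.piFinset fun i => Fintype.piFinset fun _ : A i => Finset.Icc (-(H : ℤ)) H).filter
    (fun c => ∀ i, val (c i) x = 0)

theorem mem_sys {n s : ℕ} (A : Fin s → Finset (Fin n → ℤ)) (H : ℕ) (c : (i : Fin s) → A i → ℤ) :
    c ∈ (Fintype.piFinset fun i => Fintype.piFinset fun _ : A i => Finset.Icc (-(H : ℤ)) H) ↔
      c ∈ Systems A H := by
  rw [Fintype.mem_piFinset]
  unfold Systems
  rw [Set.mem_ofPred_eq]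
  refine forall_congr' fun i => ?_
  rw [Fintype.mem_piFinset]
  refine forall_congr' fun m => ?_
  rw [mem_Icc, abs_le]

theorem card_sys {n s : ℕ} (A : Fin s → Finset (Fin n → ℤ)) (H : ℕ) :
    (Systems A H).ncard = (2 * H + 1) ^ (∑ i, (A i).card) := by
  classical
  have h1 : Systems A H = ((Fintype.piFinset fun i => Fintype.piFinset fun _ : A i =>
      Finset.Icc (-(H : ℤ)) H : Finset _) : Set _) := by
    ext c
    rw [mem_coe, mem_sys]
  rw [h1, Set.ncard_coe_finset, Fintype.card_piFinset, ← prod_pow_eq_pow_sum]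
  refine prod_congr rfl fun i _ => ?_
  rw [Fintype.card_piFinset, prod_const, card_univ, Fintype.card_coe, Int.card_Icc]
  congr 1
  omega

theorem fin_sys {n s : ℕ} (A : Fin s → Finset (Fin n → ℤ)) (H : ℕ) : (Systems A H).Finite := by
  have h1 : Systems A H ⊆ ((Fintype.piFinset fun i => Fintype.piFinset fun _ : A i =>
      Finset.Icc (-(H : ℤ)) H : Finset _) : Set _) := by
    intro c hc
    rw [mem_coe, mem_sys]
    exact hc
  exact (finite_toSet _).subset h1

/-- the number of the systems that vanish at `x` -/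
theorem card_zer {n s : ℕ} (A : Fin s → Finset (Fin n → ℤ)) (hA : ∀ i, (A i).Nonempty) (l : ℕ)
    (hl : ∀ i, Conn l (A i)) (m₀ : Fin n → ℝ) (hm₀ : m₀ ∈ convexHull ℝ (Sums A)) (B H : ℕ)
    (hB : 1 ≤ B) (hBH : B ^ l ≤ H) (x : Fin n → ℚ) (hx : ∀ j, x j ≠ 0)
    (hxB : ∀ j, |(x j).num| ≤ B ∧ (x j).den ≤ B)
    (P : Finset ℕ) (hP : ∀ p ∈ P, p.Prime) (hP2 : ∀ p : ℕ, p.Prime → p ∉ P → av x p = 0) :
    ((zer A H x).card : ℝ) ≤ (3 * (H : ℝ)) ^ (∑ i, ((A i).card - 1)) *
      ∏ p ∈ P, (p : ℝ) ^ (-psi A hA m₀ (av x p)) := by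
  classical
  have hmon : ∀ i, ∀ m : A i, (∏ j, x j ^ (m : Fin n → ℤ) j) ≠ 0 := fun i m =>
    Finset.prod_ne_zero_iff.2 fun j _ => zpow_ne_zero _ (hx j)
  have hprim : ∀ i, ∃ (t : ℚ) (y : A i → ℤ), t ≠ 0 ∧
      (∀ m : A i, (y m : ℚ) = t * ∏ j, x j ^ (m : Fin n → ℤ) j) ∧ gd y univ = 1 := by
    intro i
    have : Nonempty (A i) := (hA i).coe_sort
    exact exists_prim (fun m : A i => ∏ j, x j ^ (m : Fin n → ℤ) j) (hmon i)
  choose t y ht hy hg using hprim
  have hy0 : ∀ i, ∀ m : A i, y i m ≠ 0 := by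
    intro i m h
    have := hy i m
    rw [h, Int.cast_zero] at this
    exact mul_ne_zero (ht i) (hmon i m) this.symm
  obtain ⟨σ, hσ⟩ := exists_sigma A hA m₀ hm₀ x hx t ht y hy hg P hP hP2
  have h1 : ∀ i, (sol (y i) H).card * (y i (σ i)).natAbs ≤ (3 * H) ^ ((A i).card - 1) := by
    intro i
    have := sol_le (y i) (hy0 i) (hg i) H
      (adj_of_conn (A i) l (hl i) x hx B H hxB hB hBH (t i) (ht i) (y i) (hy i)) (σ i)
    rwa [Fintype.card_coe] at this
  have h2 : (zer A H x).card ≤ ∏ i, (sol (y i) H).card := by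
    rw [← Fintype.card_piFinset]
    apply card_le_card
    intro c hc
    unfold zer at hc
    rw [mem_filter, Fintype.mem_piFinset] at hc
    rw [Fintype.mem_piFinset]
    intro i
    unfold sol
    rw [mem_filter]
    refine ⟨hc.1 i, ?_⟩
    have h3 := hc.2 i
    unfold val at h3
    have h4 : ((∑ m : A i, c i m * y i m : ℤ) : ℚ) = t i * ∑ m : A i, (c i m : ℚ) *
        ∏ j, x j ^ (m : Fin n → ℤ) j := by
      push_cast
      rw [mul_sum]
      refine sum_congr rfl fun m _ => ?_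
      rw [hy i m]
      ring
    rw [h3, mul_zero] at h4
    exact_mod_cast h4
  have h3 : (zer A H x).card * ∏ i, (y i (σ i)).natAbs ≤ (3 * H) ^ (∑ i, ((A i).card - 1)) := by
    calc _ ≤ (∏ i, (sol (y i) H).card) * ∏ i, (y i (σ i)).natAbs := Nat.mul_le_mul_right _ h2
      _ = ∏ i, ((sol (y i) H).card * (y i (σ i)).natAbs) := by rw [prod_mul_distrib]
      _ ≤ ∏ i, (3 * H) ^ ((A i).card - 1) := prod_le_prod' fun i _ => h1 i
      _ = _ := by rw [prod_pow_eq_pow_sum]
  have h4 : ((zer A H x).card : ℝ) * ∏ i, ((y i (σ i)).natAbs : ℝ) ≤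
      (3 * (H : ℝ)) ^ (∑ i, ((A i).card - 1)) := by exact_mod_cast h3
  have h5 : ∏ p ∈ P, (p : ℝ) ^ (psi A hA m₀ (av x p)) ≤ ∏ i, ((y i (σ i)).natAbs : ℝ) := by
    have h6 : ∀ i, (0 : ℝ) < ((y i (σ i)).natAbs : ℝ) := fun i => by
      exact_mod_cast Int.natAbs_pos.2 (hy0 i (σ i))
    have h7 : 0 < ∏ p ∈ P, (p : ℝ) ^ (psi A hA m₀ (av x p)) :=
      prod_pos fun p hp => Real.rpow_pos_of_pos (by exact_mod_cast (hP p hp).pos) _
    rw [← Real.log_le_log_iff h7 (prod_pos fun i _ => h6 i), Real.log_prod fun i _ => (h6 i).ne',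
      Real.log_prod]
    · refine le_trans (le_of_eq ?_) hσ
      refine sum_congr rfl fun p hp => ?_
      rw [Real.log_rpow (by exact_mod_cast (hP p hp).pos)]
    · intro p hp
      exact (Real.rpow_pos_of_pos (by exact_mod_cast (hP p hp).pos) _).ne'
  have h8 : (∏ p ∈ P, (p : ℝ) ^ (-psi A hA m₀ (av x p))) *
      ∏ p ∈ P, (p : ℝ) ^ (psi A hA m₀ (av x p)) = 1 := by
    rw [← prod_mul_distrib]
    apply prod_eq_one
    intro p hp
    rw [← Real.rpow_add (by exact_mod_cast (hP p hp).pos), neg_add_cancel, Real.rpow_zero]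
  have h9 : (0 : ℝ) ≤ ∏ p ∈ P, (p : ℝ) ^ (-psi A hA m₀ (av x p)) :=
    prod_nonneg fun p _ => Real.rpow_nonneg (Nat.cast_nonneg _) _
  calc ((zer A H x).card : ℝ) = (zer A H x).card *
        ((∏ p ∈ P, (p : ℝ) ^ (-psi A hA m₀ (av x p))) *
          ∏ p ∈ P, (p : ℝ) ^ (psi A hA m₀ (av x p))) := by rw [h8, mul_one]
    _ = ((zer A H x).card * ∏ p ∈ P, (p : ℝ) ^ (psi A hA m₀ (av x p))) *
        ∏ p ∈ P, (p : ℝ) ^ (-psi A hA m₀ (av x p)) := by ring
    _ ≤ (3 * (H : ℝ)) ^ (∑ i, ((A i).card - 1)) *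
        ∏ p ∈ P, (p : ℝ) ^ (-psi A hA m₀ (av x p)) := by
        apply mul_le_mul_of_nonneg_right _ h9
        exact (mul_le_mul_of_nonneg_left h5 (Nat.cast_nonneg _)).trans h4

/-- the primes of a point -/
noncomputable def prs {n : ℕ} (x : Fin n → ℚ) : Finset ℕ :=
  univ.biUnion fun j => (x j).num.natAbs.primeFactors ∪ (x j).den.primeFactors

theorem prs_prime {n : ℕ} (x : Fin n → ℚ) : ∀ p ∈ prs x, p.Prime := by
  intro p hp
  unfold prs at hp
  obtain ⟨j, _, hj⟩ := mem_biUnion.1 hp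
  rcases mem_union.1 hj with h | h
  · exact Nat.prime_of_mem_primeFactors h
  · exact Nat.prime_of_mem_primeFactors h

theorem av_prs {n : ℕ} (x : Fin n → ℚ) (hx : ∀ j, x j ≠ 0) (p : ℕ) (hp : p.Prime)
    (h : p ∉ prs x) : av x p = 0 := by
  funext j
  unfold av
  unfold prs at h
  rw [mem_biUnion] at h
  push Not at h
  have h1 := h j (mem_univ j)
  rw [mem_union, not_or, Nat.mem_primeFactors, Nat.mem_primeFactors] at h1
  have h2 : ¬ p ∣ (x j).num.natAbs := fun h3 =>
    h1.1 ⟨hp, h3, Int.natAbs_ne_zero.2 (Rat.num_ne_zero.2 (hx j))⟩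
  have h3 : ¬ p ∣ (x j).den := fun h3 => h1.2 ⟨hp, h3, (x j).den_nz⟩
  rw [padicValRat_def, padicValInt, padicValNat.eq_zero_of_not_dvd h2,
    padicValNat.eq_zero_of_not_dvd h3]
  rfl

theorem nonempty_of_adj {n s : ℕ} (A : Fin s → Finset (Fin n → ℤ)) (h : AdjointBig A) :
    ∀ i, (A i).Nonempty := by
  obtain ⟨m₀, hm₀, _⟩ := h
  have h1 : (convexHull ℝ (Sums A)).Nonempty := ⟨m₀, interior_subset hm₀⟩
  rw [convexHull_nonempty_iff] at h1
  obtain ⟨m, σ, _⟩ := h1
  exact fun i => ⟨σ i, (σ i).2⟩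

/-- the upper bound -/
theorem upper {n s : ℕ} (l : ℕ) (A : Fin s → Finset (Fin n → ℤ)) (hl : ∀ i, Conn l (A i))
    (hadj : AdjointBig A) : ∃ K : ℝ, ∀ H B : ℕ, 1 ≤ B → B ^ l ≤ H →
      ((WithPoint A H B).ncard : ℝ) ≤ K * (3 * (H : ℝ)) ^ (∑ i, ((A i).card - 1)) := by
  classical
  have hA := nonempty_of_adj A hadj
  obtain ⟨m₀, hm₀, hm⟩ := hadj
  obtain ⟨K, hK⟩ := sum_points A hA m₀ hm₀ hm
  refine ⟨K, fun H B hB hBH => ?_⟩
  have hfin : (WithPoint A H B).Finite := (fin_sys A H).subset fun c hc => hc.1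
  have hex : ∀ c : {c // c ∈ WithPoint A H B}, ∃ x : Fin n → ℚ, (∀ j, x j ≠ 0) ∧
      (∀ j, |(x j).num| ≤ B ∧ (x j).den ≤ B) ∧ ∀ i, val (c.1 i) x = 0 := fun c => c.2.2
  choose ch hch using hex
  have : Fintype {c // c ∈ WithPoint A H B} := hfin.fintype
  set Z : Finset (Fin n → ℚ) := univ.image ch with hZ
  have hZ1 : ∀ x ∈ Z, (∀ j, x j ≠ 0) ∧ (∀ j, |(x j).num| ≤ B ∧ (x j).den ≤ B) := by
    intro x hx
    obtain ⟨c, _, rfl⟩ := mem_image.1 hx
    exact ⟨(hch c).1, (hch c).2.1⟩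
  set P : Finset ℕ := Z.biUnion prs with hPdef
  have hP : ∀ p ∈ P, p.Prime := by
    intro p hp
    obtain ⟨x, _, hx⟩ := mem_biUnion.1 hp
    exact prs_prime x p hx
  have hP2 : ∀ x ∈ Z, ∀ p : ℕ, p.Prime → p ∉ P → av x p = 0 := by
    intro x hx p hp hpP
    apply av_prs x (hZ1 x hx).1 p hp
    intro h
    exact hpP (mem_biUnion.2 ⟨x, hx, h⟩)
  have hcov : WithPoint A H B ⊆ ((Z.biUnion fun x => zer A H x : Finset _) : Set _) := by
    intro c hc
    rw [mem_coe, mem_biUnion]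
    refine ⟨ch ⟨c, hc⟩, mem_image_of_mem _ (mem_univ _), ?_⟩
    unfold zer
    rw [mem_filter, mem_sys]
    exact ⟨hc.1, (hch ⟨c, hc⟩).2.2⟩
  have h1 : ((WithPoint A H B).ncard : ℝ) ≤ ∑ x ∈ Z, ((zer A H x).card : ℝ) := by
    have h2 := Set.ncard_le_ncard hcov (finite_toSet _)
    rw [Set.ncard_coe_finset] at h2
    exact_mod_cast h2.trans card_biUnion_le
  refine h1.trans ?_
  have h2 : ∀ x ∈ Z, ((zer A H x).card : ℝ) ≤ (3 * (H : ℝ)) ^ (∑ i, ((A i).card - 1)) *
      ∏ p ∈ P, (p : ℝ) ^ (-psi A hA m₀ (av x p)) := fun x hx =>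
    card_zer A hA l hl m₀ (interior_subset hm₀) B H hB hBH x (hZ1 x hx).1 (hZ1 x hx).2 P hP
      (hP2 x hx)
  refine (sum_le_sum h2).trans ?_
  rw [← mul_sum, mul_comm K]
  exact mul_le_mul_of_nonneg_left (hK Z P (fun x hx => (hZ1 x hx).1) hP hP2) (by positivity)

/-- the coefficient vectors with sum zero -/
theorem card_sum_zero {ι : Type*} [Fintype ι] [DecidableEq ι] (m₁ : ι) (H : ℕ) :
    H ^ (Fintype.card ι - 1) ≤ (Fintype.card ι) ^ (Fintype.card ι - 1) *
      ((Fintype.piFinset fun _ : ι => Finset.Icc (-(H : ℤ)) H).filter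
        (fun c => ∑ m, c m = 0)).card := by
  classical
  set N := Fintype.card ι with hN
  have hN0 : 0 < N := Fintype.card_pos_iff.2 ⟨m₁⟩
  set K := H / N with hK
  set W := Fintype.piFinset fun m : ι => if m = m₁ then ({0} : Finset ℤ) else
    Finset.Icc (-(K : ℤ)) K with hW
  have hWc : W.card = (2 * K + 1) ^ (N - 1) := by
    rw [hW, Fintype.card_piFinset, ← mul_prod_erase univ _ (mem_univ m₁), if_pos rfl,
      card_singleton, one_mul]
    have h1 : ∀ m ∈ univ.erase m₁, (if m = m₁ then ({0} : Finset ℤ) else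
        Finset.Icc (-(K : ℤ)) K).card = 2 * K + 1 := by
      intro m hm
      rw [if_neg (ne_of_mem_erase hm), Int.card_Icc]
      omega
    rw [prod_congr rfl h1, prod_const, card_erase_of_mem (mem_univ _), card_univ]
  have h1 : W.card ≤ ((Fintype.piFinset fun _ : ι => Finset.Icc (-(H : ℤ)) H).filter
        (fun c => ∑ m, c m = 0)).card := by
    apply card_le_card_of_injOn (fun c => Function.update c m₁ (-∑ m, c m))
    · intro c hc
      have hc' := mem_coe.1 hc
      rw [hW, Fintype.mem_piFinset] at hc'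
      have hc1 : c m₁ = 0 := by
        have := hc' m₁
        rwa [if_pos rfl, mem_singleton] at this
      have hcm : ∀ m, |c m| ≤ K := by
        intro m
        by_cases hm : m = m₁
        · rw [hm, hc1, abs_zero]
          exact Int.natCast_nonneg K
        · have := hc' m
          rw [if_neg hm, mem_Icc, ← abs_le] at this
          exact this
      have hKH : (N : ℤ) * K ≤ H := by
        have := Nat.mul_div_le H N
        exact_mod_cast this
      rw [mem_coe, mem_filter, Fintype.mem_piFinset]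
      refine ⟨fun m => ?_, ?_⟩
      · change Function.update c m₁ (-∑ m, c m) m ∈ _
        rw [mem_Icc, ← abs_le]
        by_cases hm : m = m₁
        · rw [hm, Function.update_self, abs_neg]
          calc |∑ m, c m| ≤ ∑ m, |c m| := abs_sum_le_sum_abs _ _
            _ ≤ ∑ _m : ι, (K : ℤ) := sum_le_sum fun m _ => hcm m
            _ = N * K := by rw [sum_const, card_univ, nsmul_eq_mul]
            _ ≤ H := hKH
        · rw [Function.update_of_ne hm]
          refine (hcm m).trans ?_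
          have : (K : ℤ) ≤ N * K := by
            have : (1 : ℤ) ≤ N := by exact_mod_cast hN0
            nlinarith [Int.natCast_nonneg K]
          linarith
      · have h2 : ∑ m, Function.update c m₁ (-∑ m, c m) m =
            (-∑ m, c m) + ∑ m ∈ univ.erase m₁, c m := by
          rw [← add_sum_erase univ _ (mem_univ m₁), Function.update_self]
          congr 1
          exact sum_congr rfl fun m hm => Function.update_of_ne (ne_of_mem_erase hm) _ _
        rw [h2, ← add_sum_erase univ (fun m => c m) (mem_univ m₁), hc1]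
        ring
    · intro c hc d hd hcd
      have hc' := mem_coe.1 hc
      have hd' := mem_coe.1 hd
      rw [hW, Fintype.mem_piFinset] at hc' hd'
      simp only at hcd
      funext m
      by_cases hm : m = m₁
      · have h2 := hc' m₁
        have h3 := hd' m₁
        rw [if_pos rfl, mem_singleton] at h2 h3
        rw [hm, h2, h3]
      · have := congrFun hcd m
        rwa [Function.update_of_ne hm, Function.update_of_ne hm] at this
  rw [hWc] at h1
  refine le_trans ?_ (Nat.mul_le_mul_left _ h1)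
  rw [← mul_pow]
  apply Nat.pow_le_pow_left
  have h2 := Nat.lt_div_mul_add (a := H) hN0
  rw [← hK] at h2
  nlinarith

/-- the lower bound -/
theorem lower {n s : ℕ} (A : Fin s → Finset (Fin n → ℤ)) (hA : ∀ i, (A i).Nonempty) :
    ∃ c : ℝ, 0 < c ∧ ∀ H B : ℕ, 1 ≤ B → c * (H : ℝ) ^ (∑ i, ((A i).card - 1)) ≤
      ((WithPoint A H B).ncard : ℝ) := by
  classical
  refine ⟨1 / ∏ i, ((A i).card : ℝ) ^ ((A i).card - 1), ?_, fun H B hB => ?_⟩
  · apply one_div_pos.2
    apply prod_pos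
    intro i _
    have : (0 : ℝ) < (A i).card := by exact_mod_cast (hA i).card_pos
    positivity
  have hpos : (0 : ℝ) < ∏ i, ((A i).card : ℝ) ^ ((A i).card - 1) := by
    apply prod_pos
    intro i _
    have : (0 : ℝ) < (A i).card := by exact_mod_cast (hA i).card_pos
    positivity
  rw [one_div, inv_mul_le_iff₀ hpos]
  have hsub : ((Fintype.piFinset fun i => (Fintype.piFinset fun _ : A i =>
      Finset.Icc (-(H : ℤ)) H).filter (fun c => ∑ m, c m = 0) : Finset _) : Set _) ⊆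
      WithPoint A H B := by
    intro c hc
    rw [mem_coe, Fintype.mem_piFinset] at hc
    refine ⟨?_, fun _ => 1, fun j => one_ne_zero, fun j => ?_, fun i => ?_⟩
    · rw [← mem_sys, Fintype.mem_piFinset]
      exact fun i => (mem_filter.1 (hc i)).1
    · constructor
      · rw [Rat.num_one, abs_one]
        exact_mod_cast hB
      · rw [Rat.den_one]
        exact hB
    · unfold val
      have h1 := (mem_filter.1 (hc i)).2
      have h2 : ∀ m : A i, (c i m : ℚ) * ∏ j : Fin n, (1 : ℚ) ^ (m : Fin n → ℤ) j = c i m := by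
        intro m
        rw [prod_congr rfl fun j _ => one_zpow _, prod_const_one, mul_one]
      rw [sum_congr rfl fun m _ => h2 m]
      exact_mod_cast h1
  have hfin : (WithPoint A H B).Finite := (fin_sys A H).subset fun c hc => hc.1
  have h1 := Set.ncard_le_ncard hsub hfin
  rw [Set.ncard_coe_finset, Fintype.card_piFinset] at h1
  have h2 : H ^ (∑ i, ((A i).card - 1)) ≤ (∏ i, ((A i).card) ^ ((A i).card - 1)) *
      (WithPoint A H B).ncard := by
    refine le_trans ?_ (Nat.mul_le_mul_left _ h1)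
    rw [← prod_pow_eq_pow_sum, ← prod_mul_distrib]
    apply prod_le_prod'
    intro i _
    obtain ⟨m₁, hm₁⟩ := hA i
    have := card_sum_zero (⟨m₁, hm₁⟩ : A i) H
    rwa [Fintype.card_coe] at this
  exact_mod_cast h2

/-- **Random systems of Laurent polynomials.** -/
theorem newton (n s l : ℕ) (A : Fin s → Finset (Fin n → ℤ)) (hl : ∀ i, Conn l (A i))
    (hadj : AdjointBig A) : ∃ c C : ℝ, 0 < c ∧ ∀ H B : ℕ, 1 ≤ B → B ^ l ≤ H →
      (Systems A H).ncard = (2 * H + 1) ^ (∑ i, (A i).card) ∧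
      c / (H : ℝ) ^ s * ((Systems A H).ncard : ℝ) ≤ ((WithPoint A H B).ncard : ℝ) ∧
      ((WithPoint A H B).ncard : ℝ) ≤ C / (H : ℝ) ^ s * ((Systems A H).ncard : ℝ) := by
  classical
  have hA := nonempty_of_adj A hadj
  obtain ⟨K, hK⟩ := upper l A hl hadj
  obtain ⟨c, hc, hlow⟩ := lower A hA
  set N := ∑ i, (A i).card with hN
  have hNs : ∑ i, ((A i).card - 1) + s = N := by
    have h1 : ∑ i, (((A i).card - 1) + 1) = N := by
      rw [hN]
      exact sum_congr rfl fun i _ => Nat.sub_add_cancel (hA i).card_pos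
    rw [sum_add_distrib] at h1
    simpa using h1
  refine ⟨c / 3 ^ N, max K 0 * 3 ^ N, by positivity, fun H B hB hBH => ⟨card_sys A H, ?_, ?_⟩⟩
  · have hH : 1 ≤ H := le_trans (Nat.one_le_pow _ _ hB) hBH
    have hHr : (1 : ℝ) ≤ H := by exact_mod_cast hH
    have hH0 : (0 : ℝ) < H := by linarith
    refine le_trans ?_ (hlow H B hB)
    rw [card_sys]
    push_cast
    rw [← hN, div_mul_eq_mul_div, div_le_iff₀ (by positivity), mul_assoc, ← pow_add, hNs,
      div_mul_eq_mul_div, div_le_iff₀ (by positivity), mul_assoc, ← mul_pow]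
    apply mul_le_mul_of_nonneg_left _ hc.le
    exact pow_le_pow_left₀ (by positivity) (by linarith) _
  · have hH : 1 ≤ H := le_trans (Nat.one_le_pow _ _ hB) hBH
    have hHr : (1 : ℝ) ≤ H := by exact_mod_cast hH
    have hH0 : (0 : ℝ) < H := by linarith
    refine (hK H B hB hBH).trans ?_
    rw [card_sys]
    push_cast
    rw [← hN, div_mul_eq_mul_div, le_div_iff₀ (by positivity), mul_assoc, mul_assoc]
    have h1 : (3 * (H : ℝ)) ^ (∑ i, ((A i).card - 1)) * (H : ℝ) ^ s ≤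
        3 ^ N * (2 * (H : ℝ) + 1) ^ N := by
      calc (3 * (H : ℝ)) ^ (∑ i, ((A i).card - 1)) * (H : ℝ) ^ s
          ≤ (3 * (H : ℝ)) ^ (∑ i, ((A i).card - 1)) * (3 * (H : ℝ)) ^ s :=
            mul_le_mul_of_nonneg_left (pow_le_pow_left₀ hH0.le (by linarith) _) (by positivity)
        _ = (3 * (H : ℝ)) ^ N := by rw [← pow_add, hNs]
        _ = 3 ^ N * (H : ℝ) ^ N := mul_pow _ _ _
        _ ≤ _ := mul_le_mul_of_nonneg_left (pow_le_pow_left₀ hH0.le (by linarith) _)
            (by positivity)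
    calc K * ((3 * (H : ℝ)) ^ (∑ i, ((A i).card - 1)) * (H : ℝ) ^ s)
        ≤ max K 0 * ((3 * (H : ℝ)) ^ (∑ i, ((A i).card - 1)) * (H : ℝ) ^ s) :=
          mul_le_mul_of_nonneg_right (le_max_left _ _) (by positivity)
      _ ≤ _ := mul_le_mul_of_nonneg_left h1 (le_max_right _ _)

end Pool.Agent.R870.RT
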